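import Pool.Agent.H856.PR.Port
import Pool.Agent.H856.PR.Good
import Pool.Graph.R_pool_sql_team_seeded_2aa45f1a.Q64.B.Mur

/-!
# Murre's conjectures for classes of varieties over finite fields dominated by `A × Z`, where the Frobenius of the abelian variety `A` has degree two over a field with
# one place above `p`: an exact slope criterion

Let `E` be a number field, Galois over `ℚ`, totally real or CM, with only one place above the prime
number `p`, and `q = p ^ a`. Let `P i`, `i ∈ I`, be finitely many monic polynomials of degree two
with coefficients in the ring of integers of `E`, such that all the conjugates `Γ x` of their roots
have the absolute value `√q`, and which are not supersingular: the smaller slope `s i` of `P i` is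
not `1 / 2` (`NotSS`; `a [E : ℚ] (s i)` is the valuation `ht` of the norm of the linear
coefficient). For example the `P i` are the characteristic polynomials over `E` of the Frobenius
endomorphisms of abelian varieties `A i` over the field with `q` elements, of dimension
`[E : ℚ]`, with multiplication by `E`; or of powers of abelian varieties `A i` whose Frobenius
eigenvalues have degree at most two over `E`. We assume that two of the numbers `Γ x` are equal if
they are equal up to a root of unity (`reduced`); this can be achieved by a finite extension of the
ground field. Let `M` be a field of complex numbers, of finite or infinite degree over `ℚ`,
which contains the conjugates of `E` and none of the numbers `Γ x` (`Avoids`).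

1. There are no relations between the numbers `Γ x` and the numbers with a power in `M`, but those
which come from the pairs with the product `q` (`NoRelations`), if and only if (`SameSlopes`)
`s i = s j` for all `i`, `j` such that the quadratic extensions of `E` given by `P i` and `P j` are
conjugate: `disc (P i) σ (disc (P j))` is a square in `E` for an automorphism `σ` of `E`. For
example this is so if all `P i` are ordinary.

2. Suppose that this condition is satisfied. Let the `f j` be monic polynomials with integral
coefficients whose complex roots are among the numbers `Γ x` (as the characteristic polynomials of
the `A i`), and let `A` be an abelian variety over the field with `Q = q ^ s` elements, `s > 0`,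
which is isogenous to a product of powers of abelian varieties with the characteristic polynomials
`f j`.

Let `𝒱` be **any** class of smooth projective varieties over the field with `Q` elements which is closed
under products and `𝒲` **any** subclass, closed under products, such that each variety of the class `𝒱`
is dominated by a product `A × Z`, where `A` is as above (`Q = q ^ s`), in the class `𝒱`, where `Z`
belongs to `𝒲`, and where

* the eigenvalues of Frobenius on the cohomology of `Z` have powers in `M` (`PowerIn`).

**Murre's conjectures (A), (B), (C), (D) are true for all motives `(X, p, n)` with `X` in the class
`𝒱` if and only if they are true for all motives `(Z, p, n)` with `Z` in the class `𝒲`.** So Q1,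
restricted to the motives of varieties in `𝒱`, is equivalent to Q1, restricted to the motives of
varieties in `𝒲`: the abelian varieties `A` may be removed. For instance, `𝒲` may be the class of
the powers of one variety, and `𝒱` the class of all varieties dominated by products `A × Z`, `Z` in
`𝒲`. No case of the conjectures of Tate, Beilinson, Murre is assumed.

Here `IsChow`, `IsWeil`, `IsStandard`, `IsProjective` are the formal properties of the Chow groups
with rational coefficients and of a Weil cohomology theory `H` with coefficients in an algebraically
closed field, for the varieties of the class `𝒱` (`restrictWeil` is the restriction of these data to
`𝒲`), and `Murre` are the conjectures for the motive `(X, p)` (the twist `n` only renumbers the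
groups). What is used besides are known theorems: `HasFrobenii` (the Frobenius endomorphism acts on
`CH^i` as multiplication by `Q ^ i`, and the weights of its eigenvalues on `H^j`, by Deligne),
`IsAbelian` (`H(A)` is generated by `H^1`, Frobenius is diagonalizable on `H^1` by Weil, and the
theorem of Tate on divisors), and `kimura` (if rational and homological equivalence coincide on all
varieties of the class `𝒲`, the motives of the varieties of the class `𝒱` are finite-dimensional,
and homologically trivial self-correspondences are nilpotent). `Dominated` says that there are a
morphism `g : A × Z → X` and a class `w` on `A × Z` with `g_* w = [X]`.

The framework and the geometric part (`murreReduces`) are those of the library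
(`ProductsAllCMTypes`, `AllFromMiddleD`), as in the hand-in `SmallCoreFields` of this page. The new
part is the criterion: which abelian
varieties with multiplication by the given field `E` have no relations, with arbitrary other
factors, by the slopes alone; there is no assumption on the Galois groups of the fields of the
Frobenius elements, and the `A i` may have any dimension and number. The Tate classes on the
products of the `A i` themselves, without the assumption `reduced` and with supersingular
factors, are in `MP_ee618e_ag.ProductsWithOnePlace`.

The proof of 1. Let `v` be a place above `p` of the algebraic numbers. As `E` has only one place above
`p`, all places are `v g`, where `g` fixes `E`. Such `g` permute the two roots of each `φ (P i)`,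
by a character of order at most two, so `v (g Γ x) - v (q) / 2` is `± (1 / 2 - s i) v (q) χ_x (g)`.
Suppose that a product of numbers `Γ x` has a power in `M`. As `Γ x` is not in `M`, there is a `g₀`
which fixes `M` with `χ_x (g₀) = - 1`; the quotient of the product by its image under `g₀` is a root of
unity. By the independence of characters the part of the product with the character `χ_x` has
the same valuation as its conjugate; if all slopes in it are equal, it contains two numbers
with opposite signs, whose product is `q` up to a root of unity. If there are different
slopes, a product of powers of two numbers is a relation.
-/

set_option autoImplicit false

namespace Pool.Agent.Results.MP_38de51_ag.OnePlaceProducts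

open Polynomial Pool.Agent.H856.PR Pool.Agent.Q64.B

/-- **The criterion**, and the reduction. -/
theorem result {p a : ℕ} [Fact p.Prime] {E : Type} [Field E] [NumberField E] {I : Type}
    [Fintype I] {P : I → E[X]} {Γ : (I × (E →+* ℂ)) × Fin 2 → ℂ} (h : IsFamily p a P Γ)
    {M : Subfield ℂ} (hM : Avoids Γ M) :
    (NoRelations ((p : ℂ) ^ a) Γ M ↔ SameSlopes p P) ∧
    (SameSlopes p P → ∀ (J : Type) (f : J → ℤ[X]), (∀ j, (f j).Monic) →
      (∀ j (z : ℂ), aeval z (f j) = 0 → ∃ x, Γ x = z) →
      MurreReduces (RootsIn (PowerIn M)) (p ^ a) f) :=
  ⟨criterion h hM, fun hs _ _ hf hroot => murreReduces (one_lt_pow₀
    (Fact.out : p.Prime).one_lt h.pos.ne')
    (good_of_noRel (noRel h hs hM hf hroot) (not_powerIn_zero M))⟩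

end Pool.Agent.Results.MP_38de51_ag.OnePlaceProducts
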