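import Mathlib
import Pool.Agent.H298.Core.GoodRel
import Pool.Graph.R_pool_sql_team_seeded_2aa45f1a.Q64.B.Mur

/-!
# Murre's conjectures for the motives of classes of varieties over finite fields: abelian varieties
whose CM fields have irreducible odd part or primitive core

**In short.** Let `K` be a CM field of degree `2 g`, `K₀` its maximal real subfield and `2 ^ v`, `1
≤ v ≤ g`, the degree of the Galois closure of `K` over the Galois closure of `K₀` (typically `v =
g`). The theorem is for the Weil numbers `π` all powers of which generate `K`, in the following
cases (`FieldCriteria`), among others: **(a) `v > g / 3`; (b) the slopes of `π` have odd
denominators, for example `π` is ordinary, and `v > g / 4`, or `g` is the product of two prime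
numbers and `v > 1`, or `g` is prime, or `K` has few divisors in the sense of `FewDivisors`; (c) the
Galois group of `K₀` is triply transitive, for example the symmetric group, or the alternating group
if `g ≥ 5`, `g ≥ 3`, and no norm of `π` to an imaginary quadratic field is supersingular** (this is
so if `g` is odd and `π` is ordinary). The general hypothesis (`IsCoreWeil`) is explained below.

**Cores.** Let `X` be the set of the complex embeddings of the CM field `K`, `[K : ℚ] = 2 g`. The
automorphisms of `ℂ` which map all elements of `X` to themselves or to their complex conjugates are
called sign changes. The first core of `φ : X` consists of the `ψ : X` which are moved by the same
sign changes as `φ`. If one uses all automorphisms which map the elements of the first core to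
themselves or to their conjugates, one obtains the second core, inside of the first one, and so on
(`coreOf`). The cores of the same index have the same number `2 c` of elements, `c` divides `g`, and
the smallest such number `c` is the core number of `K`. It satisfies `c ≤ g / v`, and if a prime
number `q` divides the discriminant of `K`, but not the discriminant of the maximal real subfield,
then `q ^ c` divides the discriminant of `K`. `FewDivisors` says that all divisors of `g` which
satisfy these conditions are one or prime.

**The Weil numbers.** Let `p` be a prime number, `q = p ^ a`, let `K i` (`i` in a finite set) be CM
fields and `π i` Weil numbers for `q` in `K i` such that each power `(π i) ^ n`, `n ≥ 1`, generates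
`K i`. By Honda and Tate they correspond to the abelian varieties over the field with `q` elements
which are geometrically simple with commutative endomorphism ring, and to other abelian varieties.
Suppose that for each `K = K i` one of the following conditions holds (`IsCoreWeil`).

* The rational functions on `X` which change their sign under complex conjugation are an irreducible
  representation of the automorphisms of `ℂ` (`OddIrreducible`), for example because the core number
  of `K` is one.
* There is a core with `c` pairs of embeddings, and `c` is a prime number, or `c = [K : F]` for a
  subfield `F`, not totally real, such that the automorphisms of `ℂ` act doubly transitively on the
  extensions to `K` of an embedding of `F` (`PrimitiveCore`); and there is **no** subfield `F` with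
  `[K : F] = c`, not totally real, in which the norm `N` of `π i` is supersingular
  (`SupersingularNorm`; this means that `N ^ 2 / q ^ c` is a root of unity).

The condition on the norms in the second case is necessary and sufficient for the absence of
relations between the conjugates of `π i` (`NormCriteria`), and so of exotic Tate classes on the
powers of its abelian variety; it is satisfied if `c = 2`, if `c` is odd and the slopes of `π i`
have odd denominators (for example in the ordinary case), and if all subfields `F` with `[K : F] =
c` are totally real. There are no other conditions on `π i`, its slopes, the decomposition of `p` in
`K i`, the degree or the Galois group of `K i`. The fields `K i` are pairwise independent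
(`PairwiseIndep`; no condition if there is only one field). Let `f i` be monic polynomials whose
complex roots are conjugates of `π i` (`IsPolyOf`), for instance powers of the characteristic
polynomials of Frobenius.

Consider the abelian varieties `A` over the field with `Q = q ^ s` elements which are isogenous to a
product of powers of abelian varieties coming from the field with `q` elements, with characteristic
polynomials `f i`. Let `𝒱` be **any** class of smooth projective varieties over the field with `Q`
elements which is closed under products and `𝒲` **any** subclass, closed under products, such that
each variety of the class `𝒱` is dominated by a product `A × Z`, where `A` is a variety of this kind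
in the class `𝒱`, where `Z` belongs to `𝒲`, and where

* the eigenvalues `ρ` of Frobenius on the cohomology of `Z` and their conjugates are unrelated to
  the fields `K i` (`UnrelatedTo`): a function `n` on the complex embeddings of `K i` with `n (conj
  φ) = - n φ` which is invariant under all automorphisms of `ℂ` that fix a power of `ρ` is zero.
  This is so if for each embedding `ψ` of `K i` some automorphism which fixes a power of `ρ` is the
  complex conjugation on `ψ (K i)`: for instance, if a power of `ρ` lies in a field linearly
  disjoint from the normal closures of the `K i`, or in a totally real field. It is also so if the
  degree of `ρ` is less than twice the dimension of each nonzero space of functions `n` stable under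
  all automorphisms of `ℂ`.

**Murre's conjectures (A), (B), (C), (D) are true for all motives `(X, p, n)` with `X` in the class
`𝒱` if and only if they are true for all motives `(Z, p, n)` with `Z` in the class `𝒲`.** So Q1,
restricted to the motives of varieties in `𝒱`, is equivalent to Q1, restricted to the motives of
varieties in `𝒲`: the abelian varieties `A` may be removed. For instance, `𝒲` may be the class of
the powers of one variety, and `𝒱` the class of all varieties dominated by products `A × Z`, `Z` in
`𝒲`. No case of the conjectures of Tate, Beilinson, Murre is assumed.

Here `IsChow`, `IsWeil`, `IsStandard`, `IsProjective` are the formal properties of the Chow groups
with rational coefficients and of a Weil cohomology theory `H` with coefficients in an algebraically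
closed field, for the varieties of the class `𝒱` (`restrictWeil` is the restriction of these data to
`𝒲`), and `Murre` are the conjectures for the motive `(X, p)` (the twist `n` only renumbers the
groups). What is used besides are known theorems: `HasFrobenii` (the Frobenius endomorphism acts on
`CH^i` as multiplication by `Q ^ i`, and the weights of its eigenvalues on `H^j`, by Deligne),
`IsAbelian` (`H(A)` is generated by `H^1`, Frobenius is diagonalizable on `H^1` by Weil, and the
theorem of Tate on divisors), and `kimura` (if rational and homological equivalence coincide on all
varieties of the class `𝒲`, the motives of the varieties of the class `𝒱` are finite-dimensional,
and homologically trivial self-correspondences are nilpotent). `Dominated` says that there are a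
morphism `g : A × Z → X` and a class `w` on `A × Z` with `g_* w = [X]`.

Part two (`Criteria`) contains the criteria: the cases (a), (b) and (c) above (`FieldCriteria`) and
the facts about the norms (`NormCriteria`). The fields `K i` are pairwise independent, for example,
if for any two of them there is a prime number which divides the discriminant of one of them, but
not that of its maximal real subfield and not that of the other one.

**What was known.** In the library the theorem is proved for almost all slope types of CM fields
(`ProductsAllCMTypes`, whose machine is used, with the theorem on (A), (B), (C), (D) of
`AllFromMiddleD`); over finite fields Murre's conjectures for the powers of one abelian variety of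
prime dimension follow from work of Tankeev, Ribet, Soulé and Kahn. New here are the abelian
varieties of all dimensions in the fields with primitive cores, with a condition on the norms which
is necessary and sufficient, without exceptional types.

**The proof.** It is sufficient to show for each field `K` that the function `w`, the slope of `φ
(π)` minus one half, on the set `X` is not orthogonal to a nonzero space of odd functions which is
stable under the automorphisms of `ℂ`. If the odd functions are irreducible this is clear. Let `r`
be an element of such a space with integral values. By the sign changes one can cut `r` down; this
gives, by induction on the size of the support and on the index of the core, a relation which is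
supported in one core. The automorphisms preserving the core act transitively on it. If it has `2 c`
elements with a prime number `c`, then a Sylow subgroup contains an element which has two orbits of
length `c` on the core, exchanged by the complex conjugation. Since the cyclotomic polynomial is
irreducible, either `w (τ φ) = w (τ φ')` for all `τ` with two different `φ`, `φ'` of the core, or
the sums of `w` over the translates of one orbit are zero, and the orbit consists of the extensions
of an embedding of a subfield `F` with `[K : F] = c`, which is not totally real. In the doubly
transitive case the extensions of an embedding of `F` are one half of the core (a sign change moves
all of them or none), and an average over a stabilizer gives the same two alternatives. In the first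
case `φ (π)` and `φ' (π)` have the same absolute values at all places of all conjugates, so they
differ by a root of unity, and a power of `π` does not generate `K`. In the second case the norm of
`π` in `F` is supersingular. Conversely a supersingular norm is a relation, by Kronecker's theorem.
For the cases (a), (b) and (c) one uses that a sign change is determined by the first cores which it
moves, so that `2 ^ v ≤ 2 ^ (g / c)`, and that for a triply transitive group either the odd
functions are irreducible or the signs are given by a character of the group, so that `K` contains
an imaginary quadratic field. It follows that the correspondence on `A` given by the sum of the
products of dual classes of divisor products acts as the identity on the Chow groups of `A × Z`, if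
homologically trivial self-correspondences of `A × Z` are nilpotent: the Frobenius endomorphism of
`A × Z` is the multiplication by `Q ^ i` on `CH^i`, so that the Frobenius endomorphism of `A`
satisfies a power of the polynomial reciprocal to that of the Frobenius endomorphism of `Z`; this
polynomial is prime to the one whose value on `H(A)` lies in the part generated by divisors, and the
difference of the two correspondences is nilpotent. So the Chow groups of `A × Z` are the direct sum
of the products of finitely many products of divisors on `A` with the Chow groups of `Z`; if the
cycle class maps are injective for `Z`, they are so for `A × Z`, and for all varieties dominated by
`A × Z`. Finally, Murre's conjectures hold for all motives of a class of varieties over a finite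
field, closed under products, if and only if the cycle class maps are injective. Indeed, if they are
injective, then the Kunneth projectors (polynomials in Frobenius, by Katz and Messing) are
idempotents in the Chow groups, and one obtains (A) and the middle case of (D), so all four
conjectures by the theorem of helper69. Conversely, (A) and (D) imply that homologically trivial
self-correspondences are nilpotent; let `M_j` be a part of weight `j ≠ 2 i`. A polynomial in
Frobenius which vanishes on `H^j(M)` is nilpotent on `M_j` and acts on `CH^i(M_j)` as a number,
which is not zero, as `Q ^ i` has another weight. So `CH^i(M_j) = 0`, and the homologically trivial
classes in `CH^i(M_(2 i))` are zero by (D).
-/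

set_option autoImplicit false

namespace Pool.Agent.Results.MP_38de51_ag.SmallCoreFields

open NumberField Polynomial Pool.Agent.H977R3.CM Pool.Agent.Y1.CT Pool.Agent.Q64.L
  Pool.Agent.H298.Core Pool.Agent.Q64.B Module

/-- What can be seen from the degrees of the fields and of their Galois closures, discriminants and
slopes. A CM field of degree `2 g` has few divisors if the degree of its Galois closure over the
Galois closure of the maximal real subfield is larger than `2 ^ (g / 4)`, and if `g` is the product
of two prime numbers and that degree is not `2`. The criteria for the norms (`NormCriteria`) and for
Weil numbers (`FieldCriteria`) hold. -/
def Criteria : Prop :=
  ∀ (K : Type) [Field K] [NumberField K] [IsCMField K],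
    (LargeClosure K 4 → FewDivisors K) ∧
    (∀ p₁ p₂ : ℕ, p₁.Prime → p₂.Prime → finrank ℚ K = 2 * (p₁ * p₂) →
      closureDegree K ≠ 2 * closureDegree (maximalRealSubfield K) → FewDivisors K) ∧
    ∀ (p : ℕ) [Fact p.Prime] (a : ℕ), 0 < a → ∀ π : K, Pool.Agent.Y156.P.IsSimpleWeil p a π →
      NormCriteria p a π ∧ FieldCriteria p a π

theorem criteria_hold : Criteria :=
  fun K _ _ _ => ⟨(coreFacts_hold K).2.2.2.2.2.1, (coreFacts_hold K).2.2.2.2.2.2.1,
    fun p _ _ ha π hπ => coreCriteria_hold.2.1 K p _ ha π hπ⟩

/-- **Murre's conjectures (A), (B), (C), (D) for all motives of the class `𝒱` are equivalent to those
for all motives of the class `𝒲`, if `𝒱` is dominated by products `A × Z`, `Z` in `𝒲` unrelated, for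
all abelian varieties `A` whose Weil numbers lie in independent CM fields with irreducible odd part
or primitive core.** -/
theorem result :
    (∀ (p : ℕ) [Fact p.Prime] (a : ℕ), 0 < a → ∀ (I : Type) [Fintype I] (K : I → Type)
      [∀ i, Field (K i)] [∀ i, NumberField (K i)] [∀ i, IsCMField (K i)], PairwiseIndep K →
      ∀ (π : ∀ i, K i) (f : I → ℤ[X]), (∀ i, IsCoreWeil p a (π i)) →
      (∀ i, IsPolyOf (π i) (f i)) → MurreReduces (UnrelatedRoots K) (p ^ a) f) ∧ Criteria :=
  ⟨fun _ _ _ ha _ _ _ _ _ _ hK _ _ hπ hf =>
    murreReduces (Nat.one_lt_pow ha.ne' (Fact.out : Nat.Prime _).one_lt)
      (good_core ha hK hπ hf), criteria_hold⟩

end Pool.Agent.Results.MP_38de51_ag.SmallCoreFields
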